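import Mathlib
import Pool.Agent.Helper831.NilMetric

set_option maxSynthPendingDepth 3
set_option linter.unusedSectionVars false

open scoped Manifold ContDiff Topology
open Set Filter

namespace Pool.Agent.X177.Sol

open Pool.Agent.Helper831

/-- the number `√3` -/
noncomputable def s3 : ℝ := Real.sqrt 3

theorem s3_sq : s3 * s3 = 3 := Real.mul_self_sqrt (by norm_num)

theorem s3_pos : 0 < s3 := Real.sqrt_pos.2 (by norm_num)

theorem s3_lt : s3 < 2 := by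
  have h1 := s3_sq
  have h2 := s3_pos
  nlinarith

/-- first real embedding of `ℤ[√3]` -/
noncomputable def σ₁ : ℤ√3 →+* ℝ := Zsqrtd.lift ⟨s3, by rw [s3_sq]; norm_num⟩

/-- second real embedding of `ℤ[√3]` -/
noncomputable def σ₂ : ℤ√3 →+* ℝ :=
  Zsqrtd.lift ⟨-s3, by rw [neg_mul_neg, s3_sq]; norm_num⟩

theorem σ₁_apply (v : ℤ√3) : σ₁ v = v.re + v.im * s3 := by
  simp [σ₁, Zsqrtd.lift]

theorem σ₂_apply (v : ℤ√3) : σ₂ v = v.re - v.im * s3 := by
  simp [σ₂, Zsqrtd.lift]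
  ring

theorem three_nonsq (n : ℤ) : (3 : ℤ) ≠ n * n := by
  intro h
  have h1 : n ≤ 1 ∨ 2 ≤ n := by omega
  have h2 : -1 ≤ n ∨ n ≤ -2 := by omega
  rcases h1 with h1 | h1 <;> rcases h2 with h2 | h2 <;> nlinarith

theorem σ₁_injective : Function.Injective σ₁ :=
  Zsqrtd.lift_injective _ three_nonsq

/-- the fundamental unit `2 + √3` of `ℤ[√3]` -/
def ε : (ℤ√3)ˣ where
  val := ⟨2, 1⟩
  inv := ⟨2, -1⟩
  val_inv := by ext <;> simp
  inv_val := by ext <;> simp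

/-- `θ = log (2 + √3)` -/
noncomputable def θ : ℝ := Real.log (2 + s3)

theorem θ_pos : 0 < θ := Real.log_pos (by linarith [s3_pos])

theorem exp_θ : Real.exp θ = 2 + s3 := Real.exp_log (by linarith [s3_pos])

theorem exp_neg_θ : Real.exp (-θ) = 2 - s3 := by
  rw [Real.exp_neg, exp_θ]
  have h1 := s3_sq
  have h2 := s3_pos
  rw [inv_eq_one_div, div_eq_iff (by linarith)]
  nlinarith

theorem σ₁_ε (k : ℤ) : σ₁ ((ε ^ k : (ℤ√3)ˣ) : ℤ√3) = Real.exp (k * θ) := by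
  have h1 : σ₁ ((ε : (ℤ√3)ˣ) : ℤ√3) = Real.exp θ := by
    rw [σ₁_apply, exp_θ]
    simp [ε]
  have h2 : (Units.map (σ₁ : ℤ√3 →* ℝ) (ε ^ k) : ℝ) = Real.exp (k * θ) := by
    rw [map_zpow, Units.val_zpow_eq_zpow_val]
    have h3 : ((Units.map (σ₁ : ℤ√3 →* ℝ)) ε : ℝ) = Real.exp θ := h1
    rw [h3, ← Real.rpow_intCast, ← Real.exp_mul, mul_comm]
  exact h2

theorem σ₂_ε (k : ℤ) : σ₂ ((ε ^ k : (ℤ√3)ˣ) : ℤ√3) = Real.exp (-(k * θ)) := by
  have h1 : σ₂ ((ε : (ℤ√3)ˣ) : ℤ√3) = Real.exp (-θ) := by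
    rw [σ₂_apply, exp_neg_θ]
    simp [ε]
  have h2 : (Units.map (σ₂ : ℤ√3 →* ℝ) (ε ^ k) : ℝ) = Real.exp (-(k * θ)) := by
    rw [map_zpow, Units.val_zpow_eq_zpow_val]
    have h3 : ((Units.map (σ₂ : ℤ√3 →* ℝ)) ε : ℝ) = Real.exp (-θ) := h1
    rw [h3, ← Real.rpow_intCast, ← Real.exp_mul]
    congr 1
    ring
  exact h2

/-- The lattice `ℤ[√3] ⋊ ℤ`, where `1 ∈ ℤ` acts by multiplication by the unit `2 + √3`. -/
@[ext] structure Gam where
  v : ℤ√3
  k : ℤ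

namespace Gam

instance : Mul Gam := ⟨fun g h => ⟨g.v + (ε ^ g.k : (ℤ√3)ˣ) * h.v, g.k + h.k⟩⟩
instance : One Gam := ⟨⟨0, 0⟩⟩
instance : Inv Gam := ⟨fun g => ⟨-((ε ^ (-g.k) : (ℤ√3)ˣ) * g.v), -g.k⟩⟩

theorem mul_v (g h : Gam) : (g * h).v = g.v + (ε ^ g.k : (ℤ√3)ˣ) * h.v := rfl
theorem mul_k (g h : Gam) : (g * h).k = g.k + h.k := rfl
theorem one_v : (1 : Gam).v = 0 := rfl
theorem one_k : (1 : Gam).k = 0 := rfl
theorem inv_v (g : Gam) : (g⁻¹).v = -((ε ^ (-g.k) : (ℤ√3)ˣ) * g.v) := rfl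
theorem inv_k (g : Gam) : (g⁻¹).k = -g.k := rfl

instance : Group Gam :=
  Group.ofLeftAxioms
    (by
      intro g h l
      refine Gam.ext ?_ ?_
      · simp only [mul_v, mul_k, zpow_add, Units.val_mul]
        ring
      · simp only [mul_k]
        ring)
    (by
      intro g
      refine Gam.ext ?_ ?_
      · simp [mul_v, one_v, one_k]
      · simp [mul_k, one_k])
    (by
      intro g
      refine Gam.ext ?_ ?_
      · simp [mul_v, inv_v, inv_k, one_v]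
      · simp [mul_k, inv_k, one_k])

/-- The action of the lattice on `ℝ³` with coordinates `(t, x, y)`:
`(v, k) • (t, x, y) = (t + k θ, e^{kθ} x + σ₁ v, e^{-kθ} y + σ₂ v)`. -/
noncomputable instance : MulAction Gam (ℝ × ℝ × ℝ) where
  smul g p := (p.1 + g.k * θ, Real.exp (g.k * θ) * p.2.1 + σ₁ g.v,
    Real.exp (-(g.k * θ)) * p.2.2 + σ₂ g.v)
  one_smul p := by
    show ((p.1 + ((1 : Gam).k : ℝ) * θ, Real.exp (((1 : Gam).k : ℝ) * θ) * p.2.1 + σ₁ (1 : Gam).v,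
      Real.exp (-(((1 : Gam).k : ℝ) * θ)) * p.2.2 + σ₂ (1 : Gam).v) : ℝ × ℝ × ℝ) = p
    simp [one_v, one_k]
  mul_smul g h p := by
    refine Prod.ext ?_ (Prod.ext ?_ ?_)
    · show (p.1 + ((g * h).k : ℝ) * θ : ℝ) = (p.1 + h.k * θ) + g.k * θ
      rw [mul_k]
      push_cast
      ring
    · show (Real.exp (((g * h).k : ℝ) * θ) * p.2.1 + σ₁ (g * h).v : ℝ)
        = Real.exp (g.k * θ) * (Real.exp (h.k * θ) * p.2.1 + σ₁ h.v) + σ₁ g.v
      rw [mul_k, mul_v, map_add, map_mul, σ₁_ε]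
      push_cast
      rw [add_mul, Real.exp_add]
      ring
    · show (Real.exp (-(((g * h).k : ℝ) * θ)) * p.2.2 + σ₂ (g * h).v : ℝ)
        = Real.exp (-(g.k * θ)) * (Real.exp (-(h.k * θ)) * p.2.2 + σ₂ h.v) + σ₂ g.v
      rw [mul_k, mul_v, map_add, map_mul, σ₂_ε]
      push_cast
      rw [add_mul, neg_add, Real.exp_add]
      ring

theorem smul_def (g : Gam) (p : ℝ × ℝ × ℝ) : g • p =
    (p.1 + g.k * θ, Real.exp (g.k * θ) * p.2.1 + σ₁ g.v,
      Real.exp (-(g.k * θ)) * p.2.2 + σ₂ g.v) := rfl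

instance : SmoothConst Gam (ℝ × ℝ × ℝ) where
  smooth g := by
    simp only [smul_def]
    fun_prop

instance : ContinuousConstSMul Gam (ℝ × ℝ × ℝ) where
  continuous_const_smul g := (SmoothConst.smooth (E := ℝ × ℝ × ℝ) g).continuous

/-- if a lattice element fixes the first two coordinates of a point, it is trivial -/
theorem eq_one_of_fst (g : Gam) (p : ℝ × ℝ × ℝ) (h1 : (g • p).1 = p.1)
    (h2 : (g • p).2.1 = p.2.1) : g = 1 := by
  rw [smul_def] at h1 h2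
  simp only at h1 h2
  have hk : g.k = 0 := by
    have h3 : (g.k : ℝ) * θ = 0 := by linarith
    rcases mul_eq_zero.1 h3 with h4 | h4
    · exact_mod_cast h4
    · exact absurd h4 θ_pos.ne'
  rw [hk] at h2
  simp only [Int.cast_zero, zero_mul, Real.exp_zero, one_mul] at h2
  have hv : σ₁ g.v = σ₁ 0 := by
    rw [map_zero]
    linarith
  exact Gam.ext (σ₁_injective hv) hk

instance : IsCancelSMul Gam (ℝ × ℝ × ℝ) where
  right_cancel' g h p hp := by
    have h1 : (h⁻¹ * g) • p = p := by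
      rw [mul_smul, hp, inv_smul_smul]
    have h2 : h⁻¹ * g = 1 := eq_one_of_fst _ p (by rw [h1]) (by rw [h1])
    exact (inv_mul_eq_one.1 h2).symm

theorem finite_box (N : ℤ) : {g : Gam | |g.v.re| ≤ N ∧ |g.v.im| ≤ N ∧ |g.k| ≤ N}.Finite := by
  have h : ((Set.Icc (-N) N ×ˢ (Set.Icc (-N) N ×ˢ Set.Icc (-N) N)) : Set (ℤ × ℤ × ℤ)).Finite :=
    (Set.finite_Icc _ _).prod ((Set.finite_Icc _ _).prod (Set.finite_Icc _ _))
  refine (h.image (fun q => (⟨⟨q.1, q.2.1⟩, q.2.2⟩ : Gam))).subset ?_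
  rintro g ⟨h1, h2, h3⟩
  exact ⟨(g.v.re, g.v.im, g.k), ⟨abs_le.1 h1, abs_le.1 h2, abs_le.1 h3⟩, rfl⟩

theorem finite_of_bdd {s : Set Gam} (R : ℝ) (h : ∀ g ∈ s, |(g.v.re : ℝ)| ≤ R ∧
    |(g.v.im : ℝ)| ≤ R ∧ |(g.k : ℝ)| ≤ R) : s.Finite := by
  refine (finite_box ⌈R⌉).subset ?_
  intro g hg
  obtain ⟨h1, h2, h3⟩ := h g hg
  have hR := Int.le_ceil R
  refine ⟨?_, ?_, ?_⟩
  · have : ((|g.v.re| : ℤ) : ℝ) ≤ ⌈R⌉ := by rw [Int.cast_abs]; exact h1.trans hR
    exact_mod_cast this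
  · have : ((|g.v.im| : ℤ) : ℝ) ≤ ⌈R⌉ := by rw [Int.cast_abs]; exact h2.trans hR
    exact_mod_cast this
  · have : ((|g.k| : ℤ) : ℝ) ≤ ⌈R⌉ := by rw [Int.cast_abs]; exact h3.trans hR
    exact_mod_cast this

theorem one_lt_s3 : 1 < s3 := by
  have h1 := s3_sq
  have h2 := s3_pos
  nlinarith

instance : ProperlyDiscontinuousSMul Gam (ℝ × ℝ × ℝ) where
  finite_disjoint_inter_image := by
    intro K L hK hL
    obtain ⟨R, hR⟩ := hK.isBounded.exists_norm_le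
    obtain ⟨S, hS⟩ := hL.isBounded.exists_norm_le
    set T : ℝ := max (max R S) 1 with hT
    have hT1 : 1 ≤ T := le_max_right _ _
    have hRT : R ≤ T := (le_max_left _ _).trans (le_max_left _ _)
    have hST : S ≤ T := (le_max_right _ _).trans (le_max_left _ _)
    set C : ℝ := Real.exp (2 * T) with hC
    have hC1 : 1 ≤ C := Real.one_le_exp (by linarith)
    apply finite_of_bdd (2 * T / θ + (C * T + T))
    rintro g ⟨q, ⟨p, hp, rfl⟩, hq⟩
    have h1 := (hR p hp).trans hRT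
    have h2 := (hS _ hq).trans hST
    simp only [smul_def, Prod.norm_def, Real.norm_eq_abs] at h1 h2
    rw [max_le_iff, max_le_iff] at h1 h2
    obtain ⟨h11, h12, h13⟩ := h1
    obtain ⟨h21, h22, h23⟩ := h2
    have hk : |(g.k : ℝ) * θ| ≤ 2 * T := by
      rw [abs_le] at h11 h21 ⊢
      constructor <;> linarith
    have hkk : |(g.k : ℝ)| ≤ 2 * T / θ := by
      rw [abs_mul, abs_of_pos θ_pos] at hk
      rw [le_div_iff₀ θ_pos]
      exact hk
    have he1 : Real.exp (g.k * θ) ≤ C := Real.exp_le_exp.2 (abs_le.1 hk).2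
    have he2 : Real.exp (-(g.k * θ)) ≤ C := Real.exp_le_exp.2 (by linarith [(abs_le.1 hk).1])
    have hv1 : |σ₁ g.v| ≤ C * T + T := by
      have h3 : |Real.exp (g.k * θ) * p.2.1| ≤ C * T := by
        rw [abs_mul, Real.abs_exp]
        exact mul_le_mul he1 h12 (abs_nonneg _) (by positivity)
      have h4 : σ₁ g.v = (Real.exp (g.k * θ) * p.2.1 + σ₁ g.v) - Real.exp (g.k * θ) * p.2.1 := by
        ring
      rw [h4]
      exact (abs_sub _ _).trans (by linarith)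
    have hv2 : |σ₂ g.v| ≤ C * T + T := by
      have h3 : |Real.exp (-(g.k * θ)) * p.2.2| ≤ C * T := by
        rw [abs_mul, Real.abs_exp]
        exact mul_le_mul he2 h13 (abs_nonneg _) (by positivity)
      have h4 : σ₂ g.v = (Real.exp (-(g.k * θ)) * p.2.2 + σ₂ g.v)
          - Real.exp (-(g.k * θ)) * p.2.2 := by
        ring
      rw [h4]
      exact (abs_sub _ _).trans (by linarith)
    rw [σ₁_apply, abs_le] at hv1
    rw [σ₂_apply, abs_le] at hv2
    have hs := one_lt_s3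
    have hpos : 0 ≤ 2 * T / θ := div_nonneg (by linarith) θ_pos.le
    have hpos2 : 0 ≤ C * T + T := by positivity
    refine ⟨?_, ?_, by linarith⟩
    · rw [abs_le]
      constructor <;> linarith
    · have h5 : |(g.v.im : ℝ)| * s3 ≤ C * T + T := by
        have h55 : |(g.v.im : ℝ)| * s3 = |(g.v.im : ℝ) * s3| := by
          rw [abs_mul, abs_of_pos s3_pos]
        rw [h55, abs_le]
        constructor <;> linarith
      have h6 : |(g.v.im : ℝ)| * 1 ≤ |(g.v.im : ℝ)| * s3 :=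
        mul_le_mul_of_nonneg_left hs.le (abs_nonneg _)
      linarith

/-- the compact box which meets every orbit -/
def box : Set (ℝ × ℝ × ℝ) := Set.Icc (0 : ℝ) θ ×ˢ (Set.Icc (-4 : ℝ) 4 ×ˢ Set.Icc (-4 : ℝ) 4)

theorem exists_box (p : ℝ × ℝ × ℝ) : ∃ g : Gam, g • p ∈ box := by
  set k : ℤ := -⌊p.1 / θ⌋ with hk
  set x' : ℝ := Real.exp (k * θ) * p.2.1 with hx'
  set y' : ℝ := Real.exp (-(k * θ)) * p.2.2 with hy'
  set a : ℝ := (x' + y') / 2 with ha
  set b : ℝ := (x' - y') / (2 * s3) with hb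
  refine ⟨⟨⟨-⌊a⌋, -⌊b⌋⟩, k⟩, ?_⟩
  rw [smul_def, σ₁_apply, σ₂_apply]
  simp only [box, Set.mem_prod, Set.mem_Icc]
  rw [← hx', ← hy', hk]
  have hs := s3_pos
  have hs2 := s3_lt
  have hbs : b * s3 = (x' - y') / 2 := by
    rw [hb]
    field_simp
  have hx : x' = a + b * s3 := by rw [hbs, ha]; ring
  have hy : y' = a - b * s3 := by rw [hbs, ha]; ring
  have h1 := Int.floor_le a
  have h2 := Int.lt_floor_add_one a
  have h3 := Int.floor_le b
  have h4 := Int.lt_floor_add_one b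
  have h5 := Int.floor_le (p.1 / θ)
  have h6 := Int.lt_floor_add_one (p.1 / θ)
  rw [le_div_iff₀ θ_pos] at h5
  rw [div_lt_iff₀ θ_pos] at h6
  have h7 : 0 ≤ (b - ⌊b⌋) * s3 := mul_nonneg (by linarith) hs.le
  have h8 : (b - ⌊b⌋) * s3 ≤ 1 * 2 :=
    mul_le_mul (by linarith) hs2.le hs.le (by norm_num)
  push_cast
  refine ⟨⟨by linarith, by linarith⟩, ⟨?_, ?_⟩, ⟨?_, ?_⟩⟩
  · rw [hx]; nlinarith
  · rw [hx]; nlinarith
  · rw [hy]; nlinarith
  · rw [hy]; nlinarith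

end Gam

/-- The closed three-manifold `Γ \ ℝ³` (a torus bundle over the circle with hyperbolic
monodromy). -/
abbrev SolMfd : Type := MulAction.orbitRel.Quotient Gam (ℝ × ℝ × ℝ)

instance : CompactSpace SolMfd := by
  have hK : IsCompact Gam.box := isCompact_Icc.prod (isCompact_Icc.prod isCompact_Icc)
  have h := hK.image (continuous_proj (E := ℝ × ℝ × ℝ) (Γ := Gam))
  have h2 : (proj Gam : ℝ × ℝ × ℝ → SolMfd) '' Gam.box = univ := by
    rw [eq_univ_iff_forall]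
    intro x
    obtain ⟨p, rfl⟩ := proj_surjective x
    obtain ⟨g, hg⟩ := Gam.exists_box p
    exact ⟨g • p, hg, proj_smul g p⟩
  rw [h2] at h
  exact isCompact_univ_iff.1 h

instance : ConnectedSpace SolMfd := by
  have h : Function.Surjective (proj Gam : ℝ × ℝ × ℝ → SolMfd) := proj_surjective
  exact h.connectedSpace continuous_proj

end Pool.Agent.X177.Sol
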