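import Mathlib
import Pool.Agent.X177.Sol.Group

set_option maxSynthPendingDepth 3
set_option linter.unusedSectionVars false

open scoped Manifold ContDiff Topology
open Set Filter

namespace Pool.Agent.X177.Sol

open Pool.Agent.Helper831

/-- derivative of the action -/
theorem Gam.fderiv_smul (g : Gam) (y u : ℝ × ℝ × ℝ) :
    fderiv ℝ (fun z : ℝ × ℝ × ℝ => g • z) y u
      = (u.1, Real.exp (g.k * θ) * u.2.1, Real.exp (-(g.k * θ)) * u.2.2) := by
  set L : ℝ × ℝ × ℝ →ₗ[ℝ] ℝ × ℝ × ℝ :=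
    { toFun := fun u => (u.1, Real.exp (g.k * θ) * u.2.1, Real.exp (-(g.k * θ)) * u.2.2)
      map_add' := by
        intro a b
        refine Prod.ext ?_ (Prod.ext ?_ ?_) <;> simp <;> ring
      map_smul' := by
        intro r a
        refine Prod.ext ?_ (Prod.ext ?_ ?_) <;> simp <;> ring } with hL
  set Lc : ℝ × ℝ × ℝ →L[ℝ] ℝ × ℝ × ℝ := LinearMap.toContinuousLinearMap L with hLc
  have h : (fun z : ℝ × ℝ × ℝ => g • z) = fun z => Lc z + (g.k * θ, σ₁ g.v, σ₂ g.v) := by
    ext1 z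
    rw [Gam.smul_def]
    rfl
  rw [h]
  have h2 : HasFDerivAt (fun z => Lc z + ((g.k * θ, σ₁ g.v, σ₂ g.v) : ℝ × ℝ × ℝ)) Lc y :=
    Lc.hasFDerivAt.add_const _
  rw [h2.fderiv]
  rfl

/-- The Lorentzian metric `2 e^t dt dy - e^{-2t} dx²` on `ℝ³` (coordinates `(t, x, y)`), of
signature `(+, -, -)`. -/
noncomputable def solForm (p : ℝ × ℝ × ℝ) : LinearMap.BilinForm ℝ (ℝ × ℝ × ℝ) :=
  LinearMap.mk₂ ℝ (fun u w => Real.exp p.1 * (u.1 * w.2.2 + u.2.2 * w.1)
      - Real.exp (-(2 * p.1)) * (u.2.1 * w.2.1))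
    (by intro a b c; simp; ring) (by intro r a b; simp; ring)
    (by intro a b c; simp; ring) (by intro r a b; simp; ring)

@[simp] theorem solForm_apply (p u w : ℝ × ℝ × ℝ) :
    solForm p u w = Real.exp p.1 * (u.1 * w.2.2 + u.2.2 * w.1)
      - Real.exp (-(2 * p.1)) * (u.2.1 * w.2.1) := rfl

theorem solForm_symm (p u w : ℝ × ℝ × ℝ) : solForm p u w = solForm p w u := by
  simp only [solForm_apply]; ring

theorem solForm_nondeg (p u : ℝ × ℝ × ℝ) (h : ∀ w, solForm p u w = 0) : u = 0 := by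
  have h1 := h (1, 0, 0)
  have h2 := h (0, 1, 0)
  have h3 := h (0, 0, 1)
  simp only [solForm_apply] at h1 h2 h3
  have e1 := (Real.exp_pos p.1).ne'
  have e2 := (Real.exp_pos (-(2 * p.1))).ne'
  refine Prod.ext ?_ (Prod.ext ?_ ?_)
  · show u.1 = 0
    have : Real.exp p.1 * u.1 = 0 := by linarith
    exact (mul_eq_zero.1 this).resolve_left e1
  · show u.2.1 = 0
    have : Real.exp (-(2 * p.1)) * u.2.1 = 0 := by linarith
    exact (mul_eq_zero.1 this).resolve_left e2
  · show u.2.2 = 0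
    have : Real.exp p.1 * u.2.2 = 0 := by linarith
    exact (mul_eq_zero.1 this).resolve_left e1

/-- The Lorentzian metric on the closed three-manifold `SolMfd`. -/
noncomputable def solMetric : SemiRiemannianMetric (ℝ × ℝ × ℝ) SolMfd :=
  quotMetric (Γ := Gam) solForm solForm_symm solForm_nondeg
    (by
      intro u w
      simp only [solForm_apply]
      fun_prop)
    (by
      intro g y u w
      rw [Gam.fderiv_smul, Gam.fderiv_smul, Gam.smul_def]
      simp only [solForm_apply]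
      have h1 : Real.exp (y.1 + g.k * θ) = Real.exp y.1 * Real.exp (g.k * θ) := Real.exp_add _ _
      have h2 : Real.exp (-(2 * (y.1 + g.k * θ)))
          = Real.exp (-(2 * y.1)) * (Real.exp (-(g.k * θ)) * Real.exp (-(g.k * θ))) := by
        rw [← Real.exp_add, ← Real.exp_add]
        congr 1
        ring
      have h3 : Real.exp (g.k * θ) * Real.exp (-(g.k * θ)) = 1 := by
        rw [← Real.exp_add, add_neg_cancel, Real.exp_zero]
      rw [h1, h2]
      linear_combination (Real.exp y.1 * (u.1 * w.2.2 + u.2.2 * w.1)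
        - Real.exp (-(2 * y.1)) * (u.2.1 * w.2.1)
          * (1 + Real.exp (g.k * θ) * Real.exp (-(g.k * θ)))) * h3)

theorem solMetric_coeff {e : OpenPartialHomeomorph SolMfd (ℝ × ℝ × ℝ)}
    (he : e ∈ atlas (ℝ × ℝ × ℝ) SolMfd) (y u w : ℝ × ℝ × ℝ) :
    solMetric.coeff e y u w = solForm y u w :=
  quotMetric_coeff _ _ _ _ _ he y u w

/-- the invariant 1-form `dt` -/
noncomputable def tForm (_p : ℝ × ℝ × ℝ) : ℝ × ℝ × ℝ →ₗ[ℝ] ℝ where
  toFun u := u.1
  map_add' a b := rfl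
  map_smul' r a := rfl

/-- the invariant 1-form `e^{-t} dx` -/
noncomputable def xForm (p : ℝ × ℝ × ℝ) : ℝ × ℝ × ℝ →ₗ[ℝ] ℝ where
  toFun u := Real.exp (-p.1) * u.2.1
  map_add' a b := by simp; ring
  map_smul' r a := by simp; ring

/-- the invariant 1-form `e^t dy` -/
noncomputable def yForm (p : ℝ × ℝ × ℝ) : ℝ × ℝ × ℝ →ₗ[ℝ] ℝ where
  toFun u := Real.exp p.1 * u.2.2
  map_add' a b := by simp; ring
  map_smul' r a := by simp; ring

@[simp] theorem tForm_apply (p u : ℝ × ℝ × ℝ) : tForm p u = u.1 := rfl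
@[simp] theorem xForm_apply (p u : ℝ × ℝ × ℝ) : xForm p u = Real.exp (-p.1) * u.2.1 := rfl
@[simp] theorem yForm_apply (p u : ℝ × ℝ × ℝ) : yForm p u = Real.exp p.1 * u.2.2 := rfl

noncomputable def solT : OneForm (ℝ × ℝ × ℝ) SolMfd :=
  quotForm (Γ := Gam) tForm
    (by
      intro u
      simp only [tForm_apply]
      fun_prop)
    (by
      intro g y u
      rw [Gam.fderiv_smul]
      simp only [tForm_apply])

noncomputable def solX : OneForm (ℝ × ℝ × ℝ) SolMfd :=
  quotForm (Γ := Gam) xForm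
    (by
      intro u
      simp only [xForm_apply]
      fun_prop)
    (by
      intro g y u
      rw [Gam.fderiv_smul, Gam.smul_def]
      simp only [xForm_apply]
      rw [neg_add, Real.exp_add]
      have h3 : Real.exp (g.k * θ) * Real.exp (-(g.k * θ)) = 1 := by
        rw [← Real.exp_add, add_neg_cancel, Real.exp_zero]
      linear_combination (Real.exp (-y.1) * u.2.1) * h3)

noncomputable def solY : OneForm (ℝ × ℝ × ℝ) SolMfd :=
  quotForm (Γ := Gam) yForm
    (by
      intro u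
      simp only [yForm_apply]
      fun_prop)
    (by
      intro g y u
      rw [Gam.fderiv_smul, Gam.smul_def]
      simp only [yForm_apply]
      rw [Real.exp_add]
      have h3 : Real.exp (g.k * θ) * Real.exp (-(g.k * θ)) = 1 := by
        rw [← Real.exp_add, add_neg_cancel, Real.exp_zero]
      linear_combination (Real.exp (y.1) * u.2.2) * h3)

theorem solT_coeff {e : OpenPartialHomeomorph SolMfd (ℝ × ℝ × ℝ)}
    (he : e ∈ atlas (ℝ × ℝ × ℝ) SolMfd) (y u : ℝ × ℝ × ℝ) :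
    solT.form (e.symm y) (coordVec e y u) = u.1 :=
  quotForm_coeff _ _ _ he y u

theorem solX_coeff {e : OpenPartialHomeomorph SolMfd (ℝ × ℝ × ℝ)}
    (he : e ∈ atlas (ℝ × ℝ × ℝ) SolMfd) (y u : ℝ × ℝ × ℝ) :
    solX.form (e.symm y) (coordVec e y u) = Real.exp (-y.1) * u.2.1 :=
  quotForm_coeff _ _ _ he y u

theorem solY_coeff {e : OpenPartialHomeomorph SolMfd (ℝ × ℝ × ℝ)}
    (he : e ∈ atlas (ℝ × ℝ × ℝ) SolMfd) (y u : ℝ × ℝ × ℝ) :
    solY.form (e.symm y) (coordVec e y u) = Real.exp y.1 * u.2.2 :=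
  quotForm_coeff _ _ _ he y u

section chart

variable {γ : ℝ → SolMfd} {e : OpenPartialHomeomorph SolMfd (ℝ × ℝ × ℝ)}

theorem eval_T (he : e ∈ atlas (ℝ × ℝ × ℝ) SolMfd) (hγ : ContMDiff 𝓘(ℝ, ℝ) 𝓘(ℝ, ℝ × ℝ × ℝ) ∞ γ)
    {t : ℝ} (ht : γ t ∈ e.source) :
    solT.form (γ t) (velocity (ℝ × ℝ × ℝ) γ t) = (deriv (fun r => e (γ r)) t).1 := by
  rw [eval_velocity' solT he ((hγ t).mdifferentiableAt (by simp)) ht, solT_coeff he]

theorem eval_X (he : e ∈ atlas (ℝ × ℝ × ℝ) SolMfd) (hγ : ContMDiff 𝓘(ℝ, ℝ) 𝓘(ℝ, ℝ × ℝ × ℝ) ∞ γ)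
    {t : ℝ} (ht : γ t ∈ e.source) :
    solX.form (γ t) (velocity (ℝ × ℝ × ℝ) γ t)
      = Real.exp (-(e (γ t)).1) * (deriv (fun r => e (γ r)) t).2.1 := by
  rw [eval_velocity' solX he ((hγ t).mdifferentiableAt (by simp)) ht, solX_coeff he]

theorem eval_Y (he : e ∈ atlas (ℝ × ℝ × ℝ) SolMfd) (hγ : ContMDiff 𝓘(ℝ, ℝ) 𝓘(ℝ, ℝ × ℝ × ℝ) ∞ γ)
    {t : ℝ} (ht : γ t ∈ e.source) :
    solY.form (γ t) (velocity (ℝ × ℝ × ℝ) γ t)
      = Real.exp (e (γ t)).1 * (deriv (fun r => e (γ r)) t).2.2 := by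
  rw [eval_velocity' solY he ((hγ t).mdifferentiableAt (by simp)) ht, solY_coeff he]

theorem coord_deriv (he : e ∈ atlas (ℝ × ℝ × ℝ) SolMfd)
    (hγ : ContMDiff 𝓘(ℝ, ℝ) 𝓘(ℝ, ℝ × ℝ × ℝ) ∞ γ)
    {t : ℝ} (ht : γ t ∈ e.source) :
    HasDerivAt (fun r => e (γ r)) (deriv (fun r => e (γ r)) t) t :=
  ((contDiffAt_coord he hγ ht).differentiableAt (by simp)).hasDerivAt

theorem fderiv_solForm (y u w : ℝ × ℝ × ℝ) :
    fderiv ℝ (fun y : ℝ × ℝ × ℝ => solForm y u u) y w
      = w.1 * (Real.exp y.1 * (u.1 * u.2.2 + u.2.2 * u.1)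
        + 2 * Real.exp (-(2 * y.1)) * (u.2.1 * u.2.1)) := by
  have h1 : HasFDerivAt (fun y : ℝ × ℝ × ℝ => y.1) (ContinuousLinearMap.fst ℝ ℝ (ℝ × ℝ)) y :=
    hasFDerivAt_fst
  have h2 := (h1.exp.mul_const (u.1 * u.2.2 + u.2.2 * u.1)).sub
    ((((h1.const_mul 2).neg).exp).mul_const (u.2.1 * u.2.1))
  have h3 : (fun y : ℝ × ℝ × ℝ => solForm y u u) = fun y : ℝ × ℝ × ℝ =>
      Real.exp y.1 * (u.1 * u.2.2 + u.2.2 * u.1)
      - Real.exp (-(2 * y.1)) * (u.2.1 * u.2.1) := rfl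
  have h4 := h2.fderiv
  rw [h3]
  refine (congrArg (fun L : (ℝ × ℝ × ℝ) →L[ℝ] ℝ => L w) h4).trans ?_
  simp
  ring

/-- the three conservation laws -/
theorem geod_laws (hγ : solMetric.IsGeodesic γ) (he : e ∈ atlas (ℝ × ℝ × ℝ) SolMfd)
    {t : ℝ} (ht : γ t ∈ e.source) :
    HasDerivAt (fun s => Real.exp (e (γ s)).1 * (deriv (fun r => e (γ r)) s).1) 0 t ∧
    HasDerivAt (fun s => Real.exp (-(2 * (e (γ s)).1)) * (deriv (fun r => e (γ r)) s).2.1) 0 t ∧
    HasDerivAt (fun s => Real.exp (e (γ s)).1 * (deriv (fun r => e (γ r)) s).2.2)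
      ((deriv (fun r => e (γ r)) t).1 * (Real.exp (e (γ t)).1 * (deriv (fun r => e (γ r)) t).2.2)
        + (Real.exp (-(e (γ t)).1) * (deriv (fun r => e (γ r)) t).2.1) ^ 2) t := by
  refine ⟨?_, ?_, ?_⟩
  · have h := hγ.2 e he t ht (0, 0, 1)
    simp only [solMetric_coeff he] at h
    rw [fderiv_solForm] at h
    simp only [solForm_apply] at h
    refine (h.congr_deriv ?_).congr_of_eventuallyEq (Eventually.of_forall fun s => ?_)
    · ring
    · ring
  · have h := hγ.2 e he t ht (0, -1, 0)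
    simp only [solMetric_coeff he] at h
    rw [fderiv_solForm] at h
    simp only [solForm_apply] at h
    refine (h.congr_deriv ?_).congr_of_eventuallyEq (Eventually.of_forall fun s => ?_)
    · ring
    · ring
  · have h := hγ.2 e he t ht (1, 0, 0)
    simp only [solMetric_coeff he] at h
    rw [fderiv_solForm] at h
    simp only [solForm_apply] at h
    refine (h.congr_deriv ?_).congr_of_eventuallyEq (Eventually.of_forall fun s => ?_)
    · have h3 : Real.exp (-(2 * (e (γ t)).1)) = Real.exp (-(e (γ t)).1) ^ 2 := by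
        rw [← Real.exp_nat_mul]
        congr 1
        push_cast
        ring
      rw [h3]
      ring
    · ring

end chart

/-- the function `dt(γ')` -/
noncomputable def tau (γ : ℝ → SolMfd) (s : ℝ) : ℝ := solT.form (γ s) (velocity (ℝ × ℝ × ℝ) γ s)
/-- the function `e^{-t} dx(γ')` -/
noncomputable def xi (γ : ℝ → SolMfd) (s : ℝ) : ℝ := solX.form (γ s) (velocity (ℝ × ℝ × ℝ) γ s)
/-- the function `e^t dy(γ')` -/
noncomputable def eta (γ : ℝ → SolMfd) (s : ℝ) : ℝ := solY.form (γ s) (velocity (ℝ × ℝ × ℝ) γ s)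

section odes

variable {γ : ℝ → SolMfd}

theorem ev_source (hγ : solMetric.IsGeodesic γ) (e : OpenPartialHomeomorph SolMfd (ℝ × ℝ × ℝ))
    {t : ℝ} (ht : γ t ∈ e.source) : ∀ᶠ r in 𝓝 t, γ r ∈ e.source := by
  have hcont : ContinuousAt γ t := (hγ.1 t).continuousAt
  exact hcont.eventually_mem (e.open_source.mem_nhds ht)

theorem tau_deriv (hγ : solMetric.IsGeodesic γ) (t : ℝ) :
    HasDerivAt (tau γ) (-(tau γ t) ^ 2) t := by
  set e := chartAt (ℝ × ℝ × ℝ) (γ t) with he'
  have he := chart_mem_atlas (ℝ × ℝ × ℝ) (γ t)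
  have ht : γ t ∈ e.source := mem_chart_source (ℝ × ℝ × ℝ) (γ t)
  obtain ⟨h1, -, -⟩ := geod_laws hγ he ht
  have h2 : HasDerivAt (fun s => Real.exp (-(e (γ s)).1))
      (Real.exp (-(e (γ t)).1) * -(deriv (fun r => e (γ r)) t).1) t :=
    (hasDerivAt_fst' (coord_deriv he hγ.1 ht)).neg.exp
  have h3 := h2.mul h1
  refine (h3.congr_of_eventuallyEq ?_).congr_deriv ?_
  · filter_upwards [ev_source hγ e ht] with r hr
    unfold tau
    rw [eval_T he hγ.1 hr]
    show _ = Real.exp (-(e (γ r)).1) * (Real.exp (e (γ r)).1 * _)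
    rw [← mul_assoc, ← Real.exp_add, neg_add_cancel, Real.exp_zero, one_mul]
  · unfold tau
    rw [eval_T he hγ.1 ht]
    have h4 : Real.exp (-(e (γ t)).1) * Real.exp (e (γ t)).1 = 1 := by
      rw [← Real.exp_add, neg_add_cancel, Real.exp_zero]
    rw [mul_zero, add_zero]
    linear_combination (-(deriv (fun r => e (γ r)) t).1 ^ 2) * h4

theorem xi_deriv (hγ : solMetric.IsGeodesic γ) (t : ℝ) :
    HasDerivAt (xi γ) (tau γ t * xi γ t) t := by
  set e := chartAt (ℝ × ℝ × ℝ) (γ t) with he'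
  have he := chart_mem_atlas (ℝ × ℝ × ℝ) (γ t)
  have ht : γ t ∈ e.source := mem_chart_source (ℝ × ℝ × ℝ) (γ t)
  obtain ⟨-, h1, -⟩ := geod_laws hγ he ht
  have h2 : HasDerivAt (fun s => Real.exp ((e (γ s)).1))
      (Real.exp ((e (γ t)).1) * (deriv (fun r => e (γ r)) t).1) t :=
    (hasDerivAt_fst' (coord_deriv he hγ.1 ht)).exp
  have h3 := h2.mul h1
  refine (h3.congr_of_eventuallyEq ?_).congr_deriv ?_
  · filter_upwards [ev_source hγ e ht] with r hr
    unfold xi
    rw [eval_X he hγ.1 hr]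
    show _ = Real.exp ((e (γ r)).1) * (Real.exp (-(2 * (e (γ r)).1)) * _)
    rw [← mul_assoc, ← Real.exp_add]
    congr 2
    ring
  · unfold tau xi
    rw [eval_T he hγ.1 ht, eval_X he hγ.1 ht]
    have h4 : Real.exp (-(e (γ t)).1) = Real.exp ((e (γ t)).1) * Real.exp (-(2 * (e (γ t)).1)) := by
      rw [← Real.exp_add]
      congr 1
      ring
    rw [mul_zero, add_zero, h4]
    ring

theorem eta_deriv (hγ : solMetric.IsGeodesic γ) (t : ℝ) :
    HasDerivAt (eta γ) (tau γ t * eta γ t + xi γ t ^ 2) t := by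
  set e := chartAt (ℝ × ℝ × ℝ) (γ t) with he'
  have he := chart_mem_atlas (ℝ × ℝ × ℝ) (γ t)
  have ht : γ t ∈ e.source := mem_chart_source (ℝ × ℝ × ℝ) (γ t)
  obtain ⟨-, -, h1⟩ := geod_laws hγ he ht
  refine (h1.congr_of_eventuallyEq ?_).congr_deriv ?_
  · filter_upwards [ev_source hγ e ht] with r hr
    unfold eta
    rw [eval_Y he hγ.1 hr]
  · unfold tau xi eta
    rw [eval_T he hγ.1 ht, eval_X he hγ.1 ht, eval_Y he hγ.1 ht]

/-- a periodic function with nonnegative derivative has zero derivative -/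
theorem deriv_zero_of_periodic {f f' : ℝ → ℝ} {L : ℝ} (hL : 0 < L)
    (hp : Function.Periodic f L) (hf : ∀ s, HasDerivAt f (f' s) s) (hf' : ∀ s, 0 ≤ f' s) (s : ℝ) :
    f' s = 0 := by
  have hmono : Monotone f := monotone_of_deriv_nonneg (fun s => (hf s).differentiableAt)
    (fun s => by rw [(hf s).deriv]; exact hf' s)
  have hconst : ∀ a b : ℝ, a ≤ b → f a = f b := by
    intro a b hab
    obtain ⟨n, hn⟩ := exists_nat_ge ((b - a) / L)
    rw [div_le_iff₀ hL] at hn
    have h1 : f (a + n * L) = f a := hp.nat_mul n a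
    have h2 : f b ≤ f (a + n * L) := hmono (by linarith)
    rw [h1] at h2
    exact le_antisymm (hmono hab) h2
  have hc : f = fun _ => f s := by
    ext a
    rcases le_total a s with h | h
    · exact hconst a s h
    · exact (hconst s a h).symm
  have h1 := hf s
  rw [hc] at h1
  exact h1.unique (hasDerivAt_const s (f s))

/-- the velocity of a periodic curve is periodic -/
theorem velocity_periodic {L : ℝ} (hγ : ContMDiff 𝓘(ℝ, ℝ) 𝓘(ℝ, ℝ × ℝ × ℝ) ∞ γ)
    (hp : Function.Periodic γ L) (s : ℝ) :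
    (⟨γ (s + L), velocity (ℝ × ℝ × ℝ) γ (s + L)⟩ : TangentBundle 𝓘(ℝ, ℝ × ℝ × ℝ) SolMfd)
      = ⟨γ s, velocity (ℝ × ℝ × ℝ) γ s⟩ := by
  set e := chartAt (ℝ × ℝ × ℝ) (γ s) with he'
  have he := chart_mem_atlas (ℝ × ℝ × ℝ) (γ s)
  have ht : γ s ∈ e.source := mem_chart_source (ℝ × ℝ × ℝ) (γ s)
  have ht2 : γ (s + L) ∈ e.source := by rw [hp s]; exact ht
  rw [velocity_eq_cvec he ((hγ s).mdifferentiableAt (by simp)) ht,
    velocity_eq_cvec he ((hγ (s + L)).mdifferentiableAt (by simp)) ht2, hp s]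
  have h1 : deriv (fun r => e (γ r)) (s + L) = deriv (fun r => e (γ r)) s := by
    rw [← deriv_comp_add_const (fun r => e (γ r)) L s]
    congr 1
    ext1 r
    rw [hp r]
  rw [h1]

theorem form_periodic {L : ℝ} (η : OneForm (ℝ × ℝ × ℝ) SolMfd)
    (hγ : ContMDiff 𝓘(ℝ, ℝ) 𝓘(ℝ, ℝ × ℝ × ℝ) ∞ γ)
    (hp : Function.Periodic γ L) :
    Function.Periodic (fun s => η.form (γ s) (velocity (ℝ × ℝ × ℝ) γ s)) L := by
  intro s
  have h := velocity_periodic hγ hp s
  exact congrArg (fun p : TangentBundle 𝓘(ℝ, ℝ × ℝ × ℝ) SolMfd => η.form p.1 p.2) h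

theorem tau_zero {L : ℝ} (hL : 0 < L) (hγ : solMetric.IsGeodesic γ)
    (hp : Function.Periodic γ L) (s : ℝ) : tau γ s = 0 := by
  have h1 : Function.Periodic (fun s => -tau γ s) L := by
    intro s
    exact congrArg Neg.neg (form_periodic solT hγ.1 hp s)
  have h2 := deriv_zero_of_periodic hL h1 (f' := fun s => (tau γ s) ^ 2)
    (fun s => (tau_deriv hγ s).neg.congr_deriv (by ring)) (fun s => sq_nonneg _) s
  exact pow_eq_zero_iff (two_ne_zero) |>.1 h2

theorem xi_zero {L : ℝ} (hL : 0 < L) (hγ : solMetric.IsGeodesic γ)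
    (hp : Function.Periodic γ L) (s : ℝ) : xi γ s = 0 := by
  have h1 : Function.Periodic (eta γ) L := form_periodic solY hγ.1 hp
  have h2 := deriv_zero_of_periodic hL h1 (f' := fun s => (xi γ s) ^ 2)
    (fun s => (eta_deriv hγ s).congr_deriv (by rw [tau_zero hL hγ hp]; ring))
    (fun s => sq_nonneg _) s
  exact pow_eq_zero_iff (two_ne_zero) |>.1 h2

theorem eta_const {L : ℝ} (hL : 0 < L) (hγ : solMetric.IsGeodesic γ)
    (hp : Function.Periodic γ L) (s : ℝ) : eta γ s = eta γ 0 := by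
  have h : ∀ s, HasDerivAt (eta γ) 0 s := fun s => (eta_deriv hγ s).congr_deriv (by
    rw [tau_zero hL hγ hp, xi_zero hL hγ hp]; ring)
  exact is_const_of_deriv_eq_zero (fun s => (h s).differentiableAt) (fun s => (h s).deriv) s 0

end odes

/-- the lifted vertical line -/
noncomputable def vline (p : ℝ × ℝ × ℝ) (b s : ℝ) : ℝ × ℝ × ℝ :=
  (p.1, p.2.1, p.2.2 + Real.exp (-p.1) * b * s)

theorem continuous_vline (p : ℝ × ℝ × ℝ) (b : ℝ) : Continuous (vline p b) := by
  unfold vline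
  fun_prop

theorem hasDerivAt_vline (p : ℝ × ℝ × ℝ) (b s : ℝ) :
    HasDerivAt (vline p b) (0, 0, Real.exp (-p.1) * b) s := by
  have h1 : HasDerivAt (fun s : ℝ => p.2.2 + Real.exp (-p.1) * b * s) (Real.exp (-p.1) * b) s := by
    simpa using ((hasDerivAt_id s).const_mul (Real.exp (-p.1) * b)).const_add p.2.2
  exact (hasDerivAt_const s p.1).prodMk ((hasDerivAt_const s p.2.1).prodMk h1)

/-- a periodic geodesic is the projection of a vertical line -/
theorem eq_proj_vline {γ : ℝ → SolMfd} {L : ℝ} (hL : 0 < L) (hγ : solMetric.IsGeodesic γ)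
    (hp : Function.Periodic γ L) {p : ℝ × ℝ × ℝ} (h0 : proj Gam p = γ 0) (s : ℝ) :
    γ s = proj Gam (vline p (eta γ 0) s) := by
  set b := eta γ 0 with hb
  have hcγ : Continuous γ := hγ.1.continuous
  have hcl : IsClosed {s | γ s = proj Gam (vline p b s)} :=
    isClosed_eq hcγ (continuous_proj.comp (continuous_vline p b))
  have hop : IsOpen {s | γ s = proj Gam (vline p b s)} := by
    rw [isOpen_iff_mem_nhds]
    intro s₀ hs₀
    rw [mem_setOf_eq] at hs₀
    set e := chartAt (ℝ × ℝ × ℝ) (γ s₀) with he'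
    have he := chart_mem_atlas (ℝ × ℝ × ℝ) (γ s₀)
    have ht : γ s₀ ∈ e.source := mem_chart_source (ℝ × ℝ × ℝ) (γ s₀)
    have ht' : proj Gam (vline p b s₀) ∈ e.source := by rw [← hs₀]; exact ht
    obtain ⟨δ, hδ⟩ := chart_proj he ht'
    have hev1 : ∀ᶠ s in 𝓝 s₀, e (proj Gam (vline p b s)) = δ • vline p b s :=
      (continuous_vline p b).continuousAt.eventually hδ
    have hev2 : ∀ᶠ s in 𝓝 s₀, proj Gam (vline p b s) ∈ e.source :=
      ((continuous_proj.comp (continuous_vline p b)).continuousAt).eventually_mem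
        (e.open_source.mem_nhds ht')
    have hev3 := ev_source hγ e ht
    obtain ⟨r, hr, hball⟩ := Metric.eventually_nhds_iff_ball.1 (hev1.and (hev2.and hev3))
    have hmem : Metric.ball s₀ r ∈ 𝓝 s₀ := Metric.ball_mem_nhds s₀ hr
    refine mem_of_superset hmem ?_
    have hs₀b : s₀ ∈ Metric.ball s₀ r := Metric.mem_ball_self hr
    have hconn : IsPreconnected (Metric.ball s₀ r) := (convex_ball s₀ r).isPreconnected
    -- derivatives of the coordinates
    set u : ℝ → ℝ × ℝ × ℝ := fun r => e (γ r) with hu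
    have hu1 : ∀ s ∈ Metric.ball s₀ r, HasDerivAt (fun s => (u s).1) 0 s := by
      intro s hs
      have h1 := hasDerivAt_fst' (coord_deriv he hγ.1 (hball s hs).2.2)
      have h2 := eval_T he hγ.1 (hball s hs).2.2
      have h3 : tau γ s = 0 := tau_zero hL hγ hp s
      unfold tau at h3
      rw [h3] at h2
      rw [← h2] at h1
      exact h1
    have hu2 : ∀ s ∈ Metric.ball s₀ r, HasDerivAt (fun s => (u s).2.1) 0 s := by
      intro s hs
      have h1 := hasDerivAt_fst' (hasDerivAt_snd' (coord_deriv he hγ.1 (hball s hs).2.2))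
      have h2 := eval_X he hγ.1 (hball s hs).2.2
      have h3 : xi γ s = 0 := xi_zero hL hγ hp s
      unfold xi at h3
      rw [h3] at h2
      have h4 : (deriv (fun r => e (γ r)) s).2.1 = 0 :=
        (mul_eq_zero.1 h2.symm).resolve_left (Real.exp_pos _).ne'
      rw [h4] at h1
      exact h1
    have hc1 : ∀ s ∈ Metric.ball s₀ r, (u s).1 = (u s₀).1 := fun s hs =>
      Metric.isOpen_ball.is_const_of_deriv_eq_zero hconn
        (fun s hs => (hu1 s hs).differentiableAt.differentiableWithinAt)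
        (fun s hs => (hu1 s hs).deriv) hs hs₀b
    have hc2 : ∀ s ∈ Metric.ball s₀ r, (u s).2.1 = (u s₀).2.1 := fun s hs =>
      Metric.isOpen_ball.is_const_of_deriv_eq_zero hconn
        (fun s hs => (hu2 s hs).differentiableAt.differentiableWithinAt)
        (fun s hs => (hu2 s hs).deriv) hs hs₀b
    have hu3 : ∀ s ∈ Metric.ball s₀ r,
        HasDerivAt (fun s => (u s).2.2) (Real.exp (-(u s₀).1) * b) s := by
      intro s hs
      have h1 := hasDerivAt_snd' (hasDerivAt_snd' (coord_deriv he hγ.1 (hball s hs).2.2))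
      have h2 := eval_Y he hγ.1 (hball s hs).2.2
      have h3 : eta γ s = b := eta_const hL hγ hp s
      unfold eta at h3
      rw [h3] at h2
      have h4 : (deriv (fun r => e (γ r)) s).2.2 = Real.exp (-(u s₀).1) * b := by
        rw [h2, ← hc1 s hs, ← mul_assoc, ← Real.exp_add]
        show _ = Real.exp (-(e (γ s)).1 + (e (γ s)).1) * _
        rw [neg_add_cancel, Real.exp_zero, one_mul]
      rw [h4] at h1
      exact h1
    -- the difference in the last coordinate
    have hz : u s₀ = δ • vline p b s₀ := by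
      rw [← (hball s₀ hs₀b).1, ← hs₀]
    have hz1 : (u s₀).1 = p.1 + δ.k * θ := by
      rw [hz, Gam.smul_def]
      rfl
    have hd3 : ∀ s ∈ Metric.ball s₀ r,
        HasDerivAt (fun s => (u s).2.2 - (δ • vline p b s).2.2) 0 s := by
      intro s hs
      have h5 : HasDerivAt (fun s => (δ • vline p b s).2.2)
          (Real.exp (-(δ.k * θ)) * (Real.exp (-p.1) * b)) s := by
        have h6 := hasDerivAt_snd' (hasDerivAt_snd' (hasDerivAt_vline p b s))
        exact (h6.const_mul (Real.exp (-(δ.k * θ)))).add_const (σ₂ δ.v)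
      refine ((hu3 s hs).sub h5).congr_deriv ?_
      rw [hz1, neg_add, Real.exp_add]
      ring
    have hc3 : ∀ s ∈ Metric.ball s₀ r, (u s).2.2 - (δ • vline p b s).2.2
        = (u s₀).2.2 - (δ • vline p b s₀).2.2 := fun s hs =>
      Metric.isOpen_ball.is_const_of_deriv_eq_zero hconn
        (fun s hs => (hd3 s hs).differentiableAt.differentiableWithinAt)
        (fun s hs => (hd3 s hs).deriv) hs hs₀b
    intro s hs
    rw [mem_setOf_eq]
    apply e.injOn (hball s hs).2.2 (hball s hs).2.1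
    rw [(hball s hs).1]
    show u s = _
    refine Prod.ext ?_ (Prod.ext ?_ ?_)
    · rw [hc1 s hs, hz]
      rfl
    · rw [hc2 s hs, hz]
      rfl
    · have h7 := hc3 s hs
      rw [hz, sub_self] at h7
      exact sub_eq_zero.1 h7
  have hne : ({s | γ s = proj Gam (vline p b s)} : Set ℝ).Nonempty := by
    refine ⟨0, ?_⟩
    rw [mem_setOf_eq, ← h0]
    congr 1
    unfold vline
    simp
  have huniv := IsClopen.eq_univ ⟨hcl, hop⟩ hne
  have : s ∈ ({s | γ s = proj Gam (vline p b s)} : Set ℝ) := by rw [huniv]; exact mem_univ s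
  exact this

/-- **Every periodic geodesic of `solMetric` is constant.** -/
theorem const_of_periodic {γ : ℝ → SolMfd} {L : ℝ} (hL : 0 < L) (hγ : solMetric.IsGeodesic γ)
    (hp : Function.Periodic γ L) (s t : ℝ) : γ s = γ t := by
  obtain ⟨p, h0⟩ := proj_surjective (Γ := Gam) (γ 0)
  have h1 := eq_proj_vline hL hγ hp h0
  have h2 : γ L = γ 0 := by
    have := hp 0
    rwa [zero_add] at this
  rw [h1 L, h1 0] at h2
  obtain ⟨δ, hδ⟩ := exists_of_proj_eq h2
  have h3 : δ = 1 := by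
    apply Gam.eq_one_of_fst δ (vline p (eta γ 0) 0)
    · rw [← hδ]; rfl
    · rw [← hδ]; rfl
  rw [h3, one_smul] at hδ
  have h4 : p.2.2 + Real.exp (-p.1) * eta γ 0 * L = p.2.2 + Real.exp (-p.1) * eta γ 0 * 0 :=
    congrArg (fun q : ℝ × ℝ × ℝ => q.2.2) hδ
  have h5 : Real.exp (-p.1) * eta γ 0 * L = 0 := by linarith
  have h6 : Real.exp (-p.1) * eta γ 0 = 0 := (mul_eq_zero.1 h5).resolve_right hL.ne'
  rw [h1 s, h1 t]
  unfold vline
  rw [h6, zero_mul, zero_mul]

end Pool.Agent.X177.Sol
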